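import Pool.Agent.H339R3.CE.Main

set_option autoImplicit false

namespace Pool.Agent.Y704.LP

open Finset Pool.Agent.H339R3.CE

section graph
variable {V J : Type} [Fintype V] [DecidableEq V] [Fintype J] [DecidableEq J]

/-- the deck involution -/
def dk (x : XV V J) : XV V J := (x.1, x.2.1, x.2.2 + 1)

omit [Fintype V] [DecidableEq V] [Fintype J] [DecidableEq J] in
lemma dk_dk (x : XV V J) : dk (dk x) = x := by
  obtain ⟨v, S, z⟩ := x
  simp only [dk, Prod.mk.injEq, true_and]
  rw [add_assoc, add_self2, add_zero]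

omit [Fintype V] [DecidableEq V] [Fintype J] [DecidableEq J] in
lemma dk_ne (x : XV V J) : dk x ≠ x := by
  obtain ⟨v, S, z⟩ := x
  simp only [dk, ne_eq, Prod.mk.injEq, true_and]
  intro h
  have h1 : (1 : ZMod 2) = 0 := by
    have := add_eq_left.mp h
    exact this
  exact one_ne_zero h1

omit [Fintype V] in
lemma dk_adj {a b : J × Bool → V} {W : Finset V} {x x' : XV V J}
    (h : (XG a b W).Adj x x') : (XG a b W).Adj (dk x) (dk x') := by
  obtain ⟨e, h1, h2, h3⟩ := h
  refine ⟨e, h1, h2, ?_⟩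
  simp only [dk]
  rw [h3]; ring

omit [Fintype V] in
lemma dk_edist_le (a b : J × Bool → V) (W : Finset V) (x x' : XV V J) :
    (XG a b W).edist (dk x) (dk x') ≤ (XG a b W).edist x x' := by
  by_cases h : (XG a b W).edist x x' = ⊤
  · rw [h]; exact le_top
  · obtain ⟨p, hp⟩ := SimpleGraph.exists_walk_of_edist_ne_top h
    let f : XG a b W →g XG a b W := ⟨dk, fun h => dk_adj h⟩
    have := SimpleGraph.Walk.edist_le (p.map f)
    rw [SimpleGraph.Walk.length_map, hp] at this
    exact this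

lemma dk_edist (a b : J × Bool → V) (W : Finset V) (x x' : XV V J) :
    (XG a b W).edist (dk x) (dk x') = (XG a b W).edist x x' := by
  apply le_antisymm (dk_edist_le a b W x x')
  have h := dk_edist_le a b W (dk x) (dk x')
  rwa [dk_dk, dk_dk] at h

omit [Fintype V] [DecidableEq V] [Fintype J] [DecidableEq J] in
lemma proj_eq {x x' : XV V J} (h : proj x = proj x') : x' = x ∨ x' = dk x := by
  obtain ⟨v, S, z⟩ := x
  obtain ⟨v', S', z'⟩ := x'
  simp only [proj, Prod.mk.injEq] at h
  obtain ⟨h1, h2⟩ := h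
  subst h1
  subst h2
  simp only [dk, Prod.mk.injEq, true_and]
  rcases zm2 z with h | h <;> rcases zm2 z' with h' | h'
  · left; rw [h, h']
  · right; rw [h, h', zero_add]
  · right; rw [h, h', add_self2]
  · left; rw [h, h']

omit [Fintype V] in
lemma lift_walk {a b : J × Bool → V} {W : Finset V} {y y' : YV V J}
    (p : (YG a b W).Walk y y') : ∀ x : XV V J, proj x = y →
    ∃ (x' : XV V J) (_ : proj x' = y') (q : (XG a b W).Walk x x'), q.length = p.length := by
  induction p with
  | nil => intro x hx; exact ⟨x, hx, .nil, rfl⟩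
  | @cons y1 y2 y3 h p ih =>
    intro x hx
    obtain ⟨e, h1, h2⟩ := h
    have hadj : (XG a b W).Adj x ((y2.1, y2.2, x.2.2 + tau e x.2.1) : XV V J) := by
      refine ⟨e, ?_, ?_, rfl⟩
      · rw [← hx] at h1; exact h1
      · rw [← hx] at h2; exact h2
    obtain ⟨x', h3, q, h4⟩ := ih ((y2.1, y2.2, x.2.2 + tau e x.2.1) : XV V J) rfl
    refine ⟨x', h3, .cons hadj q, ?_⟩
    show q.length + 1 = p.length + 1
    rw [h4]

lemma edist_min (a b : J × Bool → V) (W : Finset V) (x x' : XV V J) :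
    (YG a b W).edist (proj x) (proj x')
      = min ((XG a b W).edist x x') ((XG a b W).edist x (dk x')) := by
  apply le_antisymm
  · exact le_min (proj_edist a b W x x') (proj_edist a b W x (dk x'))
  · by_cases h : (YG a b W).edist (proj x) (proj x') = ⊤
    · rw [h]; exact le_top
    · obtain ⟨p, hp⟩ := SimpleGraph.exists_walk_of_edist_ne_top h
      obtain ⟨x'', h3, q, h4⟩ := lift_walk p x rfl
      have h5 := SimpleGraph.Walk.edist_le q
      rw [h4, hp] at h5
      rcases proj_eq h3.symm with h6 | h6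
      · rw [h6] at h5; exact le_trans (min_le_left _ _) h5
      · rw [h6] at h5; exact le_trans (min_le_right _ _) h5

end graph

/-- the involution of `X` -/
noncomputable def sx (x : XS) : XS := ⟨x.idx, dk x.pt⟩

lemma sx_sx (x : XS) : sx (sx x) = x := by
  obtain ⟨m, x⟩ := x
  simp only [sx, dk_dk]

lemma sx_ne (x : XS) : sx x ≠ x := by
  obtain ⟨m, x⟩ := x
  simp only [sx, ne_eq, Glue.mk.injEq, heq_eq_eq, true_and]
  exact dk_ne x

lemma gd_sx (x x' : XS) : gd (sx x) (sx x') = gd x x' := by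
  obtain ⟨i, x⟩ := x
  obtain ⟨j, x'⟩ := x'
  by_cases h : i = j
  · subst h
    simp only [sx]
    rw [gd_same, gd_same]
    unfold td XGm
    rw [dk_edist]
  · simp only [sx]
    rw [gd_diff h, gd_diff h]

/-- the involution of `X`, as an isometry -/
noncomputable def sxe : XS ≃ᵢ XS where
  toFun := sx
  invFun := sx
  left_inv := sx_sx
  right_inv := sx_sx
  isometry_toFun := Isometry.of_dist_eq (fun x x' => by rw [dist_def, dist_def, gd_sx])

lemma pr_sx (x : XS) : pr (sx x) = pr x := rfl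

lemma pr_iff (x x' : XS) : pr x = pr x' ↔ x' = x ∨ x' = sx x := by
  constructor
  · intro h
    obtain ⟨i, x⟩ := x
    obtain ⟨j, x'⟩ := x'
    simp only [pr, Glue.mk.injEq] at h
    obtain ⟨h1, h2⟩ := h
    subst h1
    have h3 := eq_of_heq h2
    rcases proj_eq h3 with h4 | h4
    · left; rw [h4]
    · right; rw [h4]; rfl
  · rintro (h | h)
    · rw [h]
    · rw [h, pr_sx]

lemma pr_surj : Function.Surjective pr := by
  rintro ⟨m, v, S⟩
  exact ⟨⟨m, v, S, 0⟩, rfl⟩

lemma pr_dist (x x' : XS) : dist (pr x) (pr x') = min (dist x x') (dist x (sx x')) := by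
  obtain ⟨i, x⟩ := x
  obtain ⟨j, x'⟩ := x'
  rw [dist_def, dist_def, dist_def, ← Nat.cast_min]
  congr 1
  by_cases h : i = j
  · subst h
    simp only [pr, sx]
    rw [gd_same, gd_same, gd_same]
    have h1 : (YGm i).edist (proj x) (proj x')
        = min ((XGm i).edist x x') ((XGm i).edist x (dk x')) := edist_min _ _ _ _ _
    have h2 : ((td (YGm i) i (proj x) (proj x') : ℕ) : ℕ∞)
        = ((min (td (XGm i) i x x') (td (XGm i) i x (dk x')) : ℕ) : ℕ∞) := by
      rw [td_coe, h1, (Nat.mono_cast (α := ℕ∞)).map_min, td_coe, td_coe]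
      exact inf_inf_distrib_right _ _ _
    exact_mod_cast h2
  · simp only [pr, sx]
    rw [gd_diff h, gd_diff h, gd_diff h, min_self]

lemma sx_dist (x : XS) : dist x (sx x) = (x.idx : ℝ) + 1 := by
  obtain ⟨m, v, S, z⟩ := x
  rcases zm2 z with h | h
  · rw [h]
    have h1 : sx (⟨m, v, S, 0⟩ : XS) = ⟨m, v, S, 1⟩ := by
      simp only [sx, dk, zero_add]
    rw [h1]; exact X_flip m v S
  · rw [h]
    have h1 : sx (⟨m, v, S, 1⟩ : XS) = ⟨m, v, S, 0⟩ := by
      simp only [sx, dk, add_self2]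
    rw [h1, dist_comm]; exact X_flip m v S

lemma sx_finite (r : ℝ) : {x : XS | dist x (sx x) ≤ r}.Finite := by
  classical
  let B0 : Finset (Σ m, XZ m) :=
    (Finset.range (⌊r⌋₊ + 1)).sigma (fun m => (univ : Finset (XZ m)))
  let ι : (Σ m, XZ m) → XS := fun s => ⟨s.1, s.2⟩
  refine (B0.finite_toSet.image ι).subset ?_
  rintro ⟨m, x⟩ hx
  rw [Set.mem_ofPred_eq, sx_dist] at hx
  refine ⟨⟨m, x⟩, ?_, rfl⟩
  simp only [B0, Finset.coe_sigma, Set.mem_sigma_iff, Finset.coe_range, Set.mem_Iio,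
    Finset.coe_univ, Set.mem_univ, and_true]
  have h1 : (m : ℝ) ≤ r := by
    have : ((⟨m, x⟩ : XS).idx : ℝ) = (m : ℝ) := rfl
    linarith
  have h2 : m ≤ ⌊r⌋₊ := Nat.le_floor h1
  omega

end Pool.Agent.Y704.LP
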