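import Pool.Agent.Y704.LP.Lpg
import Pool.Agent.H339R3.CE.Main

set_option autoImplicit false

namespace Pool.Agent.Y704.LP

open Finset Pool.Agent.H339R3.CE MeasureTheory Filter

universe u

theorem X_not_Lp (p : ENNReal) [hp1 : Fact (1 ≤ p)] (hp : p ≠ ⊤) {Ω : Type u} [MeasurableSpace Ω]
    (μ : Measure Ω) (g : XS → Lp ℝ p μ)
    (ρm ρp : ℝ → ℝ) (hm : Tendsto ρm atTop atTop)
    (h1 : ∀ x x', ρm (dist x x') ≤ ‖g x - g x'‖) (h2 : ∀ x x', ‖g x - g x'‖ ≤ ρp (dist x x')) :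
    False := by
  classical
  have hp0 : p ≠ 0 := (lt_of_lt_of_le zero_lt_one hp1.out).ne'
  have hpos : 0 < p.toReal := ENNReal.toReal_pos hp0 hp
  set r : ℝ := p.toReal with hr
  obtain ⟨C, hC0, hC⟩ := Lp_gap.{u} DD DD_pos kap kap_pos kap_le p hp
  set L := ρp 1 with hL
  set B : ℝ := (2 * |L|) ^ r with hB
  have hB0 : 0 ≤ B := Real.rpow_nonneg (by positivity) _
  set T : ℝ := C * 4096 * B + 1 with hT
  have hT0 : 0 < T := by positivity
  -- choose the component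
  obtain ⟨t₀, ht₀⟩ := (Filter.tendsto_atTop.mp hm (T ^ (1 / r))).exists_forall_of_atTop
  obtain ⟨m, hmt⟩ := exists_nat_ge t₀
  set M := ρm ((m : ℝ) + 1) with hM
  have hMge : T ^ (1 / r) ≤ M := ht₀ _ (by linarith)
  have hM0 : 0 ≤ M := le_trans (Real.rpow_nonneg hT0.le _) hMge
  have hMT : T ≤ M ^ r := by
    have h3 := Real.rpow_le_rpow (Real.rpow_nonneg hT0.le _) hMge hpos.le
    rw [← Real.rpow_mul hT0.le, one_div, inv_mul_cancel₀ hpos.ne', Real.rpow_one] at h3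
    exact h3
  set D := gdt m with hD
  let F : Fin D.n → (Ed D.n 1024 → ZMod 2) → Lp ℝ p μ := fun v S =>
    g ⟨m, (v, S, 0)⟩ - g ⟨m, (v, S, 1)⟩
  have hgap := hC _ _ tl D.ω D.W D.hdeg D.hexp D.k D.hk (D.hbad _) Ω μ F
  have hadj : ∀ e ∈ act tl D.ω D.W, ∀ S : Ed D.n 1024 → ZMod 2, ∀ z : ZMod 2,
      ‖g ⟨m, (tl e, S, z)⟩ - g ⟨m, (D.ω e, S + Pi.single e 1, z + tau e S)⟩‖ ≤ L := by
    intro e he S z
    have h3 : (XGm m).Adj (tl e, S, z) (D.ω e, S + Pi.single e 1, z + tau e S) :=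
      ⟨e, ⟨he, Or.inl ⟨rfl, rfl⟩⟩, rfl, rfl⟩
    have h4 := h2 (⟨m, (tl e, S, z)⟩ : XS) ⟨m, (D.ω e, S + Pi.single e 1, z + tau e S)⟩
    rw [XG_dist m h3] at h4
    exact h4
  have hup : ∀ e ∈ act tl D.ω D.W, ∀ S : Ed D.n 1024 → ZMod 2,
      ‖F (tl e) S - sg (tau e S) • F (D.ω e) (S + Pi.single e 1)‖ ^ r ≤ B := by
    intro e he S
    have h3 := hadj e he S 0
    have h4 := hadj e he S 1
    have h5 : F (tl e) S - sg (tau e S) • F (D.ω e) (S + Pi.single e 1)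
        = (g ⟨m, (tl e, S, 0)⟩ - g ⟨m, (D.ω e, S + Pi.single e 1, 0 + tau e S)⟩)
        - (g ⟨m, (tl e, S, 1)⟩ - g ⟨m, (D.ω e, S + Pi.single e 1, 1 + tau e S)⟩) := by
      simp only [F]
      rcases zm2 (tau e S) with h | h
      · rw [h, sg_zero, one_smul, add_zero, add_zero]; abel
      · rw [h, sg_one, one_add_one2, zero_add]
        rw [neg_smul, one_smul]; abel
    have h6 : ‖F (tl e) S - sg (tau e S) • F (D.ω e) (S + Pi.single e 1)‖ ≤ 2 * |L| := by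
      rw [h5]
      refine le_trans (norm_sub_le _ _) ?_
      have := le_abs_self L
      linarith
    exact Real.rpow_le_rpow (norm_nonneg _) h6 hpos.le
  have hlow : ∀ v (S : Ed D.n 1024 → ZMod 2), T ≤ ‖F v S‖ ^ r := by
    intro v S
    have h3 := h1 (⟨m, (v, S, 0)⟩ : XS) ⟨m, (v, S, 1)⟩
    rw [X_flip] at h3
    exact le_trans hMT (Real.rpow_le_rpow hM0 h3 hpos.le)
  set NS : ℝ := (Fintype.card (Ed D.n 1024 → ZMod 2) : ℝ) with hNS
  have hNSpos : 0 < NS := by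
    rw [hNS]
    exact_mod_cast Fintype.card_pos
  have hLHS : (D.W.card : ℝ) * (NS * T) ≤ ∑ v ∈ D.W, ∑ S, ‖F v S‖ ^ r := by
    calc (D.W.card : ℝ) * (NS * T)
        = ∑ v ∈ D.W, ∑ S : Ed D.n 1024 → ZMod 2, T := by
          rw [Finset.sum_const, Finset.sum_const, nsmul_eq_mul, nsmul_eq_mul, Finset.card_univ]
      _ ≤ _ := Finset.sum_le_sum (fun v _ => Finset.sum_le_sum (fun S _ => hlow v S))
  have hRHS : ∑ e ∈ act tl D.ω D.W, ∑ S,
      ‖F (tl e) S - sg (tau e S) • F (D.ω e) (S + Pi.single e 1)‖ ^ r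
      ≤ (2048 * (D.n : ℝ)) * (NS * B) := by
    calc ∑ e ∈ act tl D.ω D.W, ∑ S,
          ‖F (tl e) S - sg (tau e S) • F (D.ω e) (S + Pi.single e 1)‖ ^ r
        ≤ ∑ e ∈ act tl D.ω D.W, ∑ S : Ed D.n 1024 → ZMod 2, B :=
          Finset.sum_le_sum (fun e he => Finset.sum_le_sum (fun S _ => hup e he S))
      _ = ((act tl D.ω D.W).card : ℝ) * (NS * B) := by
          rw [Finset.sum_const, Finset.sum_const, nsmul_eq_mul, nsmul_eq_mul, Finset.card_univ]
      _ ≤ _ := by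
          apply mul_le_mul_of_nonneg_right _ (by positivity)
          have h3 : (act tl D.ω D.W).card ≤ Fintype.card (Ed D.n 1024) := Finset.card_le_univ _
          rw [card_Ed] at h3
          have h4 : (act tl D.ω D.W).card ≤ 2048 * D.n := by omega
          exact_mod_cast h4
  have h3 : (D.W.card : ℝ) * (NS * T) ≤ C * ((2048 * (D.n : ℝ)) * (NS * B)) :=
    le_trans hLHS (le_trans hgap (mul_le_mul_of_nonneg_left hRHS hC0))
  have h4 : (D.n : ℝ) ≤ 2 * D.W.card := by exact_mod_cast D.hW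
  have hWpos : (0 : ℝ) < D.W.card := by
    exact_mod_cast Finset.card_pos.mpr D.hne
  have h5 : C * ((2048 * (D.n : ℝ)) * (NS * B))
      ≤ C * ((2048 * (2 * (D.W.card : ℝ))) * (NS * B)) := by
    apply mul_le_mul_of_nonneg_left _ hC0
    apply mul_le_mul_of_nonneg_right _ (by positivity)
    linarith
  have h6 : (NS * D.W.card) * T ≤ (NS * D.W.card) * (C * 4096 * B) := by
    calc (NS * D.W.card) * T = (D.W.card : ℝ) * (NS * T) := by ring
      _ ≤ C * ((2048 * (2 * (D.W.card : ℝ))) * (NS * B)) := le_trans h3 h5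
      _ = (NS * D.W.card) * (C * 4096 * B) := by ring
  have h7 : T ≤ C * 4096 * B := le_of_mul_le_mul_left h6 (by positivity)
  linarith

end Pool.Agent.Y704.LP
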