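import Pool.Agent.Y704.LP.Maz
import Pool.Agent.H339R3.CE.Gap

set_option autoImplicit false

namespace Pool.Agent.Y704.LP

open Finset Pool.Agent.H339R3.CE

lemma ph_sg (q : ℝ) (x : ZMod 2) (y : ℝ) : ph q (sg x * y) = sg x * ph q y := by
  rcases zm2 x with h | h
  · rw [h, sg_zero, one_mul, one_mul]
  · rw [h, sg_one, neg_one_mul, neg_one_mul, ph_neg]

lemma abs_sg_mul (x : ZMod 2) (y : ℝ) : |sg x * y| = |y| := by
  rcases zm2 x with h | h
  · rw [h, sg_zero, one_mul]
  · rw [h, sg_one, neg_one_mul, abs_neg]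

lemma sum_ends_le {V J : Type} [Fintype V] [DecidableEq V] [Fintype J] [DecidableEq J]
    (a b : J × Bool → V) (W : Finset V) (D : ℕ)
    (hdeg : ∀ v ∈ W, ((act a b W).filter (fun e => a e = v)).card
      + ((act a b W).filter (fun e => b e = v)).card ≤ D)
    (G : V → ℝ) (hG : ∀ v, 0 ≤ G v) :
    ∑ e ∈ act a b W, (G (a e) + G (b e)) ≤ D * ∑ v ∈ W, G v := by
  have ha : ∑ e ∈ act a b W, G (a e)
      = ∑ v ∈ W, (((act a b W).filter (fun e => a e = v)).card : ℝ) * G v := by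
    rw [← Finset.sum_fiberwise_of_maps_to (s := act a b W) (t := W) (g := a)
      (fun e he => (mem_act.mp he).1)]
    apply Finset.sum_congr rfl
    intro v _
    rw [← nsmul_eq_mul, ← Finset.sum_const]
    apply Finset.sum_congr rfl
    intro e he
    rw [(Finset.mem_filter.mp he).2]
  have hb : ∑ e ∈ act a b W, G (b e)
      = ∑ v ∈ W, (((act a b W).filter (fun e => b e = v)).card : ℝ) * G v := by
    rw [← Finset.sum_fiberwise_of_maps_to (s := act a b W) (t := W) (g := b)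
      (fun e he => (mem_act.mp he).2)]
    apply Finset.sum_congr rfl
    intro v _
    rw [← nsmul_eq_mul, ← Finset.sum_const]
    apply Finset.sum_congr rfl
    intro e he
    rw [(Finset.mem_filter.mp he).2]
  rw [Finset.sum_add_distrib, ha, hb, ← Finset.sum_add_distrib, Finset.mul_sum]
  apply Finset.sum_le_sum
  intro v hv
  rw [← add_mul]
  apply mul_le_mul_of_nonneg_right _ (hG v)
  exact_mod_cast hdeg v hv

theorem p_gap (D : ℕ) (hD : 1 ≤ D) (κ : ℝ) (hκ : 0 < κ) (hκ4 : κ ≤ 1 / 4) (q : ℝ) (hq : 0 < q) :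
    ∃ C : ℝ, 0 ≤ C ∧ ∀ (V J : Type) [Fintype V] [DecidableEq V] [Fintype J] [DecidableEq J]
      (a b : J × Bool → V) (W : Finset V)
      (_ : ∀ v ∈ W, ((act a b W).filter (fun e => a e = v)).card
        + ((act a b W).filter (fun e => b e = v)).card ≤ D)
      (_ : ∀ A ⊆ W, 2 * A.card ≤ W.card →
        A.card ≤ 4 * ((act a b W).filter (fun e => ¬ (a e ∈ A ↔ b e ∈ A))).card)
      (k : ℕ) (_ : κ * (1 + 4 * D) * W.card ≤ k)
      [DecidablePred (Bad a b W k)]
      (_ : 2 * ((univ.filter (fun s : J × Bool → ZMod 2 => Bad a b W k s)).card : ℝ)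
        ≤ 2 ^ Fintype.card J)
      (F : V → (J × Bool → ZMod 2) → ℝ),
      ∑ v ∈ W, ∑ S, |F v S| ^ (2 * q) ≤ C * ∑ e ∈ act a b W, ∑ S,
        |F (a e) S - sg (tau e S) * F (b e) (S + Pi.single e 1)| ^ (2 * q) := by
  have hDR : (1 : ℝ) ≤ D := by exact_mod_cast hD
  set c : ℝ := κ ^ 2 / (8 * D) with hc
  have hcpos : 0 < c := by positivity
  set δ : ℝ := c / (2 * D) with hδ
  have hδpos : 0 < δ := by positivity
  obtain ⟨K, hK0, hK⟩ := maz q δ hq hδpos
  refine ⟨2 * K / c, by positivity, ?_⟩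
  intro V J _ _ _ _ a b W hdeg hexp k hk _ hbad F
  have h := full_gap a b W D hD hdeg hexp κ hκ hκ4 k hk hbad (fun v S => ph q (F v S))
  simp only [ph_sq q _ hq] at h
  set T : ℝ := ∑ v ∈ W, ∑ S, |F v S| ^ (2 * q) with hT
  set E : ℝ := ∑ e ∈ act a b W, ∑ S,
    |F (a e) S - sg (tau e S) * F (b e) (S + Pi.single e 1)| ^ (2 * q) with hE
  set G : V → ℝ := fun v => ∑ S : J × Bool → ZMod 2, |F v S| ^ (2 * q) with hGdef
  have hG0 : ∀ v, 0 ≤ G v := fun v =>
    Finset.sum_nonneg (fun S _ => Real.rpow_nonneg (abs_nonneg _) _)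
  have h1 : ∑ e ∈ act a b W, ∑ S,
      (ph q (F (a e) S) - sg (tau e S) * ph q (F (b e) (S + Pi.single e 1))) ^ 2
      ≤ K * E + δ * ∑ e ∈ act a b W, (G (a e) + G (b e)) := by
    rw [hE, Finset.mul_sum, Finset.mul_sum, ← Finset.sum_add_distrib]
    apply Finset.sum_le_sum
    intro e _
    have h2 : G (b e) = ∑ S : J × Bool → ZMod 2, |F (b e) (S + Pi.single e 1)| ^ (2 * q) := by
      rw [hGdef]
      exact (Equiv.sum_comp (Equiv.addRight (Pi.single e (1 : ZMod 2)))
        (fun S => |F (b e) S| ^ (2 * q))).symm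
    have h3 : G (a e) = ∑ S, |F (a e) S| ^ (2 * q) := rfl
    rw [h2, h3, ← Finset.sum_add_distrib, Finset.mul_sum, Finset.mul_sum,
      ← Finset.sum_add_distrib]
    apply Finset.sum_le_sum
    intro S _
    have h4 := hK (F (a e) S) (sg (tau e S) * F (b e) (S + Pi.single e 1))
    rw [ph_sg, abs_sg_mul] at h4
    exact h4
  have h2 : δ * ∑ e ∈ act a b W, (G (a e) + G (b e)) ≤ δ * (D * T) :=
    mul_le_mul_of_nonneg_left (sum_ends_le a b W D hdeg G hG0) hδpos.le
  have h3 : δ * (D * T) = c / 2 * T := by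
    rw [hδ]; field_simp
  have h4 : c * T ≤ K * E + c / 2 * T := by
    calc c * T ≤ _ := h
      _ ≤ _ := h1
      _ ≤ K * E + c / 2 * T := by rw [← h3]; linarith
  rw [div_mul_eq_mul_div, le_div_iff₀ hcpos]
  linarith

end Pool.Agent.Y704.LP
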