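import Pool.Agent.Y704.LP.Gap

set_option autoImplicit false

namespace Pool.Agent.Y704.LP

open Finset Pool.Agent.H339R3.CE MeasureTheory

universe u

lemma Lp_norm_rpow {Ω : Type u} [MeasurableSpace Ω] {μ : Measure Ω} {p : ENNReal}
    [hp1 : Fact (1 ≤ p)] (hp : p ≠ ⊤) (f : Lp ℝ p μ) :
    ‖f‖ ^ p.toReal = ∫ x, |f x| ^ p.toReal ∂μ := by
  have hp0 : p ≠ 0 := (lt_of_lt_of_le zero_lt_one hp1.out).ne'
  have hpos : 0 < p.toReal := ENNReal.toReal_pos hp0 hp
  have h0 : 0 ≤ ∫ x, ‖f x‖ ^ p.toReal ∂μ :=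
    integral_nonneg (fun x => Real.rpow_nonneg (norm_nonneg _) _)
  rw [Lp.norm_def, MemLp.eLpNorm_eq_integral_rpow_norm hp0 hp (Lp.memLp f),
    ENNReal.toReal_ofReal (Real.rpow_nonneg h0 _), ← Real.rpow_mul h0,
    inv_mul_cancel₀ hpos.ne', Real.rpow_one]
  rfl

lemma Lp_integrable {Ω : Type u} [MeasurableSpace Ω] {μ : Measure Ω} {p : ENNReal}
    [hp1 : Fact (1 ≤ p)] (hp : p ≠ ⊤) (f : Lp ℝ p μ) :
    Integrable (fun x => |f x| ^ p.toReal) μ := by
  have hp0 : p ≠ 0 := (lt_of_lt_of_le zero_lt_one hp1.out).ne'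
  exact (Lp.memLp f).integrable_norm_rpow hp0 hp

theorem Lp_gap (D : ℕ) (hD : 1 ≤ D) (κ : ℝ) (hκ : 0 < κ) (hκ4 : κ ≤ 1 / 4) (p : ENNReal)
    [hp1 : Fact (1 ≤ p)] (hp : p ≠ ⊤) :
    ∃ C : ℝ, 0 ≤ C ∧ ∀ (V J : Type) [Fintype V] [DecidableEq V] [Fintype J] [DecidableEq J]
      (a b : J × Bool → V) (W : Finset V)
      (_ : ∀ v ∈ W, ((act a b W).filter (fun e => a e = v)).card
        + ((act a b W).filter (fun e => b e = v)).card ≤ D)
      (_ : ∀ A ⊆ W, 2 * A.card ≤ W.card →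
        A.card ≤ 4 * ((act a b W).filter (fun e => ¬ (a e ∈ A ↔ b e ∈ A))).card)
      (k : ℕ) (_ : κ * (1 + 4 * D) * W.card ≤ k)
      [DecidablePred (Bad a b W k)]
      (_ : 2 * ((univ.filter (fun s : J × Bool → ZMod 2 => Bad a b W k s)).card : ℝ)
        ≤ 2 ^ Fintype.card J)
      (Ω : Type u) [MeasurableSpace Ω] (μ : Measure Ω)
      (F : V → (J × Bool → ZMod 2) → Lp ℝ p μ),
      ∑ v ∈ W, ∑ S, ‖F v S‖ ^ p.toReal ≤ C * ∑ e ∈ act a b W, ∑ S : J × Bool → ZMod 2,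
        ‖F (a e) S - sg (tau e S) • F (b e) (S + Pi.single e 1)‖ ^ p.toReal := by
  have hp0 : p ≠ 0 := (lt_of_lt_of_le zero_lt_one hp1.out).ne'
  have hpos : 0 < p.toReal := ENNReal.toReal_pos hp0 hp
  obtain ⟨C, hC0, hC⟩ := p_gap D hD κ hκ hκ4 (p.toReal / 2) (by positivity)
  have h2q : 2 * (p.toReal / 2) = p.toReal := by ring
  rw [h2q] at hC
  refine ⟨C, hC0, ?_⟩
  intro V J _ _ _ _ a b W hdeg hexp k hk _ hbad Ω _ μ F
  simp only [Lp_norm_rpow hp]
  have hL : ∑ v ∈ W, ∑ S, ∫ x, |F v S x| ^ p.toReal ∂μ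
      = ∫ x, ∑ v ∈ W, ∑ S, |F v S x| ^ p.toReal ∂μ := by
    rw [integral_finsetSum _ (fun v _ => integrable_finsetSum _
      (fun S _ => Lp_integrable hp (F v S)))]
    apply Finset.sum_congr rfl
    intro v _
    rw [integral_finsetSum _ (fun S _ => Lp_integrable hp (F v S))]
  have hR : ∑ e ∈ act a b W, ∑ S : J × Bool → ZMod 2,
        ∫ x, |(F (a e) S - sg (tau e S) • F (b e) (S + Pi.single e 1) : Lp ℝ p μ) x|
          ^ p.toReal ∂μ
      = ∫ x, ∑ e ∈ act a b W, ∑ S : J × Bool → ZMod 2,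
        |(F (a e) S - sg (tau e S) • F (b e) (S + Pi.single e 1) : Lp ℝ p μ) x|
          ^ p.toReal ∂μ := by
    rw [integral_finsetSum _ (fun e _ => integrable_finsetSum _
      (fun S _ => Lp_integrable hp _))]
    apply Finset.sum_congr rfl
    intro e _
    rw [integral_finsetSum _ (fun S _ => Lp_integrable hp _)]
  rw [hL, hR, ← integral_const_mul]
  apply integral_mono_ae
  · exact integrable_finsetSum _ (fun v _ => integrable_finsetSum _
      (fun S _ => Lp_integrable hp (F v S)))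
  · exact (integrable_finsetSum _ (fun e _ => integrable_finsetSum _
      (fun S _ => Lp_integrable hp _))).const_mul C
  · have hae : ∀ᵐ x ∂μ, ∀ (e : J × Bool) (S : J × Bool → ZMod 2),
        (F (a e) S - sg (tau e S) • F (b e) (S + Pi.single e 1) : Lp ℝ p μ) x
          = F (a e) S x - sg (tau e S) * F (b e) (S + Pi.single e 1) x := by
      rw [ae_all_iff]
      intro e
      rw [ae_all_iff]
      intro S
      filter_upwards [Lp.coeFn_sub (F (a e) S) (sg (tau e S) • F (b e) (S + Pi.single e 1)),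
        Lp.coeFn_smul (sg (tau e S)) (F (b e) (S + Pi.single e 1))] with x h1 h2
      rw [h1, Pi.sub_apply, h2, Pi.smul_apply, smul_eq_mul]
    filter_upwards [hae] with x hx
    have h := hC V J a b W hdeg hexp k hk hbad (fun v S => F v S x)
    simp only [hx]
    exact h

end Pool.Agent.Y704.LP
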