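import Mathlib

set_option autoImplicit false

namespace Pool.Agent.Y704.LP

/-- the odd power function -/
noncomputable def ph (q x : ℝ) : ℝ := Real.sign x * |x| ^ q

lemma ph_neg (q x : ℝ) : ph q (-x) = -ph q x := by
  unfold ph
  rw [Real.sign_neg, abs_neg, neg_mul]

lemma ph_of_pos {q x : ℝ} (hx : 0 < x) : ph q x = x ^ q := by
  unfold ph
  rw [Real.sign_of_pos hx, one_mul, abs_of_pos hx]

lemma abs_ph_le (q x : ℝ) : |ph q x| ≤ |x| ^ q := by
  unfold ph
  have h0 : 0 ≤ |x| ^ q := Real.rpow_nonneg (abs_nonneg x) q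
  rw [abs_mul, abs_of_nonneg h0]
  have h1 : |Real.sign x| ≤ 1 := by
    rcases Real.sign_apply_eq x with h | h | h <;> rw [h] <;> simp
  calc |Real.sign x| * |x| ^ q ≤ 1 * |x| ^ q := mul_le_mul_of_nonneg_right h1 h0
    _ = |x| ^ q := one_mul _

lemma ph_sq (q x : ℝ) (hq : 0 < q) : ph q x ^ 2 = |x| ^ (2 * q) := by
  unfold ph
  rcases eq_or_ne x 0 with h | h
  · subst h
    rw [Real.sign_zero, zero_mul, abs_zero, Real.zero_rpow (by positivity)]
    norm_num
  · have h1 : Real.sign x ^ 2 = 1 := by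
      rcases Real.sign_apply_eq_of_ne_zero x h with h | h <;> rw [h] <;> norm_num
    rw [mul_pow, h1, one_mul, ← Real.rpow_natCast, ← Real.rpow_mul (abs_nonneg x), mul_comm]
    norm_num

lemma maz (q δ : ℝ) (hq : 0 < q) (hδ : 0 < δ) :
    ∃ K : ℝ, 0 ≤ K ∧ ∀ x y : ℝ,
      (ph q x - ph q y) ^ 2 ≤ K * |x - y| ^ (2 * q) + δ * (|x| ^ (2 * q) + |y| ^ (2 * q)) := by
  have hcont : ContinuousAt (fun s : ℝ => s ^ q) 1 :=
    Real.continuousAt_rpow_const 1 q (Or.inl one_ne_zero)
  have hsδ : 0 < Real.sqrt δ := Real.sqrt_pos.mpr hδ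
  obtain ⟨η0, hη0, hη⟩ := Metric.continuousAt_iff.mp hcont (Real.sqrt δ) hsδ
  set η : ℝ := min η0 (1 / 2) with hηdef
  have hηpos : 0 < η := lt_min hη0 (by norm_num)
  have hη1 : η ≤ 1 / 2 := min_le_right _ _
  refine ⟨4 / η ^ (2 * q), by positivity, ?_⟩
  -- the main case
  have main : ∀ x y : ℝ, 0 < x → |y| ≤ x →
      (ph q x - ph q y) ^ 2 ≤ 4 / η ^ (2 * q) * |x - y| ^ (2 * q)
        + δ * (|x| ^ (2 * q) + |y| ^ (2 * q)) := by
    intro x y hx hy
    have hA0 : 0 ≤ |x| ^ (2 * q) := Real.rpow_nonneg (abs_nonneg x) _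
    have hB0 : 0 ≤ |y| ^ (2 * q) := Real.rpow_nonneg (abs_nonneg y) _
    have hC0 : 0 ≤ |x - y| ^ (2 * q) := Real.rpow_nonneg (abs_nonneg _) _
    by_cases hc : η * x ≤ |x - y|
    · have h1 : |ph q x - ph q y| ≤ 2 * x ^ q := by
        have h2 := abs_ph_le q y
        have h3 : |y| ^ q ≤ x ^ q := Real.rpow_le_rpow (abs_nonneg y) hy hq.le
        have h4 := abs_sub (ph q x) (ph q y)
        rw [ph_of_pos hx, abs_of_pos (Real.rpow_pos_of_pos hx q)] at h4
        rw [ph_of_pos hx]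
        linarith
      have h5 : (ph q x - ph q y) ^ 2 ≤ 4 * x ^ (2 * q) := by
        have h6 : x ^ (2 * q) = (x ^ q) ^ 2 := by
          rw [← Real.rpow_natCast, ← Real.rpow_mul hx.le, mul_comm]; norm_num
        rw [h6, ← sq_abs]
        have h7 := abs_nonneg (ph q x - ph q y)
        nlinarith
      have h8 : (η * x) ^ (2 * q) ≤ |x - y| ^ (2 * q) :=
        Real.rpow_le_rpow (by positivity) hc (by positivity)
      rw [Real.mul_rpow hηpos.le hx.le] at h8
      have h9 : 4 * x ^ (2 * q) ≤ 4 / η ^ (2 * q) * |x - y| ^ (2 * q) := by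
        have hp : 0 < η ^ (2 * q) := Real.rpow_pos_of_pos hηpos _
        rw [div_mul_eq_mul_div, le_div_iff₀ hp]
        nlinarith
      have h10 : 0 ≤ δ * (|x| ^ (2 * q) + |y| ^ (2 * q)) := by positivity
      linarith
    · push Not at hc
      have h1 : 0 < y := by
        have := (abs_lt.mp hc).2
        nlinarith
      have h2 : |y / x - 1| < η := by
        have : y / x - 1 = -((x - y) / x) := by field_simp; ring
        rw [this, abs_neg, abs_div, abs_of_pos hx, div_lt_iff₀ hx]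
        exact hc
      have h3 : dist (y / x) 1 < η0 := by
        rw [Real.dist_eq]
        exact lt_of_lt_of_le h2 (min_le_left _ _)
      have h4 := hη h3
      rw [Real.dist_eq, Real.one_rpow] at h4
      have h5 : ph q x - ph q y = x ^ q * (1 - (y / x) ^ q) := by
        rw [ph_of_pos hx, ph_of_pos h1, Real.div_rpow h1.le hx.le]
        have : x ^ q ≠ 0 := (Real.rpow_pos_of_pos hx q).ne'
        field_simp
      have h6 : (1 - (y / x) ^ q) ^ 2 ≤ δ := by
        have h7 : (1 - (y / x) ^ q) ^ 2 = |(y / x) ^ q - 1| ^ 2 := by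
          rw [sq_abs]; ring
        rw [h7]
        calc |(y / x) ^ q - 1| ^ 2 ≤ Real.sqrt δ ^ 2 :=
              pow_le_pow_left₀ (abs_nonneg _) h4.le 2
          _ = δ := Real.sq_sqrt hδ.le
      have h8 : (ph q x - ph q y) ^ 2 ≤ δ * |x| ^ (2 * q) := by
        have h9 : |x| ^ (2 * q) = (x ^ q) ^ 2 := by
          rw [abs_of_pos hx, ← Real.rpow_natCast, ← Real.rpow_mul hx.le, mul_comm]; norm_num
        rw [h5, mul_pow, h9, mul_comm]
        exact mul_le_mul_of_nonneg_right h6 (sq_nonneg _)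
      have h10 : 0 ≤ 4 / η ^ (2 * q) * |x - y| ^ (2 * q) := by positivity
      have h11 : 0 ≤ δ * |y| ^ (2 * q) := by positivity
      linarith
  -- both signs
  have main2 : ∀ x y : ℝ, |y| ≤ |x| →
      (ph q x - ph q y) ^ 2 ≤ 4 / η ^ (2 * q) * |x - y| ^ (2 * q)
        + δ * (|x| ^ (2 * q) + |y| ^ (2 * q)) := by
    intro x y hxy
    rcases lt_trichotomy x 0 with h | h | h
    · have h1 := main (-x) (-y) (by linarith) (by rw [abs_neg]; rwa [abs_of_neg h] at hxy)
      rw [ph_neg, ph_neg, abs_neg, abs_neg] at h1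
      have h2 : (-ph q x - -ph q y) ^ 2 = (ph q x - ph q y) ^ 2 := by ring
      have h3 : |-x - -y| = |x - y| := by
        rw [← abs_neg]; congr 1; ring
      rw [h2, h3] at h1
      exact h1
    · subst h
      have hy : y = 0 := by
        rw [abs_zero] at hxy
        exact abs_eq_zero.mp (le_antisymm hxy (abs_nonneg y))
      subst hy
      have h0 : (ph q 0 - ph q 0) ^ 2 = 0 := by rw [sub_self]; norm_num
      rw [h0]
      positivity
    · exact main x y h (by rwa [abs_of_pos h] at hxy)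
  intro x y
  rcases le_total |y| |x| with h | h
  · exact main2 x y h
  · have h1 := main2 y x h
    have h2 : (ph q y - ph q x) ^ 2 = (ph q x - ph q y) ^ 2 := by ring
    rw [h2, abs_sub_comm y x, add_comm (|y| ^ (2 * q))] at h1
    exact h1

end Pool.Agent.Y704.LP
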